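import Pool.Agent.COSB.StmtsB
import Mathlib.FieldTheory.Finite.GaloisField

/-!
# Squad COSB, row FLD: a field of characteristic `p` with `q ≡ 1` modulo `4` elements
-/

set_option autoImplicit false

namespace Pool.Agent.COSB.H64

theorem fld : FldStmt := by
  intro p hp hp2
  have hpf : Fact p.Prime := ⟨hp⟩
  have hodd : p % 2 = 1 := by
    rcases hp.eq_two_or_odd with h | h
    · exact absurd h hp2
    · exact h
  have h4 : p % 4 = 1 ∨ p % 4 = 3 := by omega
  rcases h4 with h4 | h4
  · refine ⟨ZMod p, inferInstance, inferInstance, ?_, ?_⟩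
    · rw [ZMod.card]
      exact h4
    · intro k hk
      exact ⟨ZMod.castHom (dvd_pow_self p hk.ne') (ZMod p)⟩
  · obtain ⟨i, hi⟩ : ∃ i : Fintype (GaloisField p 2), @Fintype.card _ i = p ^ 2 := by
      refine ⟨Fintype.ofFinite _, ?_⟩
      rw [← GaloisField.card p 2 (by norm_num), @Nat.card_eq_fintype_card _ (Fintype.ofFinite _)]
    refine ⟨GaloisField p 2, inferInstance, i, ?_, ?_⟩
    · rw [hi, pow_two, Nat.mul_mod, h4]
    · intro k hk
      exact ⟨ZMod.castHom (dvd_pow_self p hk.ne') (GaloisField p 2)⟩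

end Pool.Agent.COSB.H64
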