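import Mathlib
import Pool.Agent.COSB.StmtsL

/-!
# Squad COSB, row LIF: lattice isomorphism is in parity-P (after the row IZF by helper75)
-/

set_option autoImplicit false

namespace Pool.Agent.COSB.H64L

open Turing Computability Pool.Agent.UT.Num Pool.Agent.H2XG Pool.Agent.PAR Pool.Agent.COS
open Pool.Agent.COSB Matrix

lemma lead_le (x : Word) : LAT.lead x ≤ x.length := by
  unfold LAT.lead
  exact List.Sublist.length_le (List.takeWhile_sublist _)

lemma qn_le (x : Word) : qn x ≤ x.length := lead_le x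

lemma qw_le (x : Word) : qw x ≤ x.length := by
  refine (lead_le (q1 x)).trans ?_
  unfold q1
  rw [List.length_drop]
  exact Nat.sub_le _ _

lemma wx_le (x : Word) : wx x ≤ (x.length + 1) * (x.length + x.length) := by
  unfold wx wl
  exact Nat.mul_le_mul (Nat.succ_le_succ (qn_le x)) (Nat.add_le_add (qn_le x) (qw_le x))

lemma LA_mono {n k l n' k' l' : ℕ} (hn : n ≤ n') (hk : k ≤ k') (hl0 : l ≤ l') :
    LA n k l ≤ LA n' k' l' := by
  unfold LA hl fl cl
  gcongr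

lemma sum_eq {n : ℕ} (U Q : Matrix (Fin n) (Fin n) ℤ) (i j : Fin n) :
    (U * Q * Uᵀ) i j = ∑ a : Fin n, ∑ b : Fin n, U i a * Q a b * U j b := by
  rw [Matrix.mul_apply, Finset.sum_comm]
  refine Finset.sum_congr rfl fun b _ => ?_
  rw [Matrix.mul_apply, Finset.sum_mul]
  rfl

/-- the predicate for an instance -/
lemma pred (hENZ : EnzStmt) (hCHZ : ChzStmt) (x : Word) (n w : ℕ) (h1 : qn x = n)
    (h2 : wx x = wl n w) (Q Q' : Matrix (Fin n) (Fin n) ℤ)
    (h3 : ∀ i j : Fin n, qQ x i j = Q i j) (h4 : ∀ i j : Fin n, qR x i j = Q' i j)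
    (u c : Word) (hu : u.length = n * n * (wl n w + 1)) (hc : c.length = n * n * (wl n w + 1)) :
    fL x u c = true ↔ ∃ U ∈ SL w Q Q', u = encZ (wl n w) U.1 ∧ c = encZ (wl n w) (U⁻¹).1 := by
  have key : ∀ U : Matrix.GeneralLinearGroup (Fin n) ℤ, RgU (wl n w) U → u = encZ (wl n w) U.1 →
      ((∀ i < n, ∀ j < n, ∑ a ∈ Finset.range n, ∑ b ∈ Finset.range n,
        nz n (wl n w) u i a * qQ x a b * nz n (wl n w) u j b = qR x i j) ↔
          U.1 * Q * U.1ᵀ = Q') := by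
    intro U hR hU
    have hz : ∀ i j : Fin n, nz n (wl n w) u i j = U.1 i j := by
      intro i j
      rw [hU]
      exact (hENZ n (wl n w)).2.1 U.1 i j (hR i j).1.1 (hR i j).1.2
    have hs : ∀ i j : Fin n, ∑ a ∈ Finset.range n, ∑ b ∈ Finset.range n,
        nz n (wl n w) u i a * qQ x a b * nz n (wl n w) u j b = (U.1 * Q * U.1ᵀ) i j := by
      intro i j
      rw [sum_eq, Finset.sum_range]
      refine Finset.sum_congr rfl fun a _ => ?_
      rw [Finset.sum_range]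
      refine Finset.sum_congr rfl fun b _ => ?_
      rw [hz, hz, h3]
    constructor
    · intro h
      ext i j
      rw [← hs, h i i.2 j j.2, h4]
    · intro h i hi j hj
      have e := hs ⟨i, hi⟩ ⟨j, hj⟩
      rw [h, ← h4] at e
      exact e
  have e0 : fL x u c = true ↔ FL x u c := by
    unfold fL
    exact @decide_eq_true_eq _ (Classical.propDecidable _) ▸ Iff.rfl
  rw [e0]
  unfold FL
  rw [h1, h2, hCHZ n (wl n w) u c hu hc]
  constructor
  · rintro ⟨⟨U, hR, e1, e2⟩, h⟩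
    exact ⟨U, ⟨hR, (key U hR e1).1 h⟩, e1, e2⟩
  · rintro ⟨U, ⟨hR, h⟩, e1, e2⟩
    exact ⟨⟨U, hR, e1, e2⟩, (key U hR e1).2 h⟩

/-- the parity for an instance -/
lemma inst (hACT : ActStmt) (hENZ : EnzStmt) (hCHZ : ChzStmt) (hINH : InhStmt) (hHPL : HplStmt)
    (x : Word) (n w : ℕ) (h1 : qn x = n) (h2 : wx x = wl n w) (Q Q' : Matrix (Fin n) (Fin n) ℤ)
    (h3 : ∀ i j : Fin n, qQ x i j = Q i j) (h4 : ∀ i j : Fin n, qR x i j = Q' i j)
    (hQ : PosF Q) (hQ' : PosF Q') (hb : ∀ i j, |Q i j| < 2 ^ w) (hb' : ∀ i j, |Q' i j| < 2 ^ w) :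
    Od (LA (qn x) (wx x + 1) (qn x * qn x * (wx x + 1)))
      (fun c => valA (fL x) (qn x) (wx x + 1) (qn x * qn x * (wx x + 1)) c = true) ↔ IsoF Q Q' := by
  have hS := hHPL n w Q Q' hQ hQ' hb hb'
  have hI := hINH n (wl n w) (SL w Q Q') hS.1 (fun U hU => hU.1) (fL x)
    (fun u c hu hc => pred hENZ hCHZ x n w h1 h2 Q Q' h3 h4 u c hu hc)
  have h := hACT n (wl n w + 1) (n * n * (wl n w + 1)) (fL x) (Nat.le_add_left 1 _) hI.1
  rw [h1, h2, h, hI.2, hS.2]

theorem lif (hACT : ActStmt) (hAMC : AmcStmt) (hPAB : PabStmt) (hENZ : EnzStmt) (hCHZ : ChzStmt)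
    (hINH : InhStmt) (hHPL : HplStmt) (hWRL : WrlStmt) (hLMC : LmcStmt) : LifStmt := by
  obtain ⟨hU, hqn, hwx⟩ := hLMC
  obtain ⟨g, hg⟩ : ∃ g : Word → Word → Bool, g = fun x c =>
      valA (fL x) (qn x) (wx x + 1) (qn x * qn x * (wx x + 1)) c := ⟨_, rfl⟩
  obtain ⟨L, hL⟩ : ∃ L : Word → ℕ, L = fun x =>
      LA (qn x) (wx x + 1) (qn x * qn x * (wx x + 1)) := ⟨_, rfl⟩
  have hkF : ∀ (m : ℕ) (A : (Fin m → List K) → Word), FPW m A →
      FPN m (fun ρ => wx (A ρ) + 1) := by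
    intro m A hA
    exact (hwx m A hA).add (FPN.const 1)
  have hlF : ∀ (m : ℕ) (A : (Fin m → List K) → Word), FPW m A →
      FPN m (fun ρ => qn (A ρ) * qn (A ρ) * (wx (A ρ) + 1)) := by
    intro m A hA
    exact ((hqn m A hA).mul (hqn m A hA)).mul (hkF m A hA)
  have hgF : ∀ (m : ℕ) (A B : (Fin m → List K) → Word), FPW m A → FPW m B →
      FPB m (fun ρ => g (A ρ) (B ρ)) := by
    intro m A B hA hB
    rw [hg]
    exact hAMC (fun x _ _ u c => fL x u c) hU m A A A B _ _ _ hA hA hA hB (hqn m A hA)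
      (hkF m A hA) (hlF m A hA)
  have hlaF : ∀ (m : ℕ) (n k l : (Fin m → List K) → ℕ), FPN m n → FPN m k → FPN m l →
      FPN m (fun ρ => LA (n ρ) (k ρ) (l ρ)) := by
    intro m n k l hn hk hl0
    have hhl : FPN m (fun ρ => hl (n ρ) (k ρ)) := (hn.mul hn).add ((hn.mul hn).mul hk)
    have hN : FPN m (fun ρ => k ρ * (n ρ * n ρ)) := hk.mul (hn.mul hn)
    have hfl : FPN m (fun ρ => fl (k ρ * (n ρ * n ρ))) :=
      ((FPN.const 2).mul hN).add ((FPN.const 2).mul (hN.mul hN))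
    have hcl : FPN m (fun ρ => cl (k ρ * (n ρ * n ρ)) (l ρ)) :=
      hl0.add ((hN.mul hl0).add (hN.mul hl0))
    exact hhl.add (hhl.add (hfl.add hcl))
  have hLF : ∀ (m : ℕ) (A : (Fin m → List K) → Word), FPW m A →
      FPN m (fun ρ => L (A ρ)) := by
    intro m A hA
    rw [hL]
    exact hlaF m _ _ _ (hqn m A hA) (hkF m A hA) (hlF m A hA)
  obtain ⟨d, hd⟩ : ∃ d : Polynomial ℕ, d = Polynomial.X := ⟨_, rfl⟩
  obtain ⟨k, hk⟩ : ∃ k : Polynomial ℕ, k = (d + 1) * (d + d) + 1 := ⟨_, rfl⟩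
  obtain ⟨l, hl0⟩ : ∃ l : Polynomial ℕ, l = d * d * k := ⟨_, rfl⟩
  obtain ⟨N, hN⟩ : ∃ N : Polynomial ℕ, N = k * (d * d) := ⟨_, rfl⟩
  obtain ⟨hlP, hhlP⟩ : ∃ hlP : Polynomial ℕ, hlP = d * d + d * d * k := ⟨_, rfl⟩
  have hLq : ∀ x, L x ≤ (hlP + (hlP + ((2 * N + 2 * (N * N)) + (l + (N * l + N * l))))).eval
      x.length := by
    intro x
    have hb : L x ≤ LA x.length ((x.length + 1) * (x.length + x.length) + 1)
        (x.length * x.length * ((x.length + 1) * (x.length + x.length) + 1)) := by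
      rw [hL]
      refine LA_mono (qn_le x) (Nat.succ_le_succ (wx_le x)) ?_
      exact Nat.mul_le_mul (Nat.mul_le_mul (qn_le x) (qn_le x)) (Nat.succ_le_succ (wx_le x))
    refine hb.trans ?_
    rw [hN, hhlP, hl0, hk, hd]
    simp only [Polynomial.eval_add, Polynomial.eval_mul, Polynomial.eval_ofNat,
      Polynomial.eval_one, Polynomial.eval_X]
    unfold LA hl fl cl
    exact le_of_eq rfl
  refine ⟨{x | Od (L x) (fun c => g x c = true)}, hPAB g L _ hgF hLF hLq, ?_⟩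
  intro n w Q Q' hQ hQ' hb hb'
  obtain ⟨e1, e2, e3, e4⟩ := hWRL n w Q Q' hb hb'
  have h2 : wx (encL n w Q Q') = wl n w := by
    unfold wx
    rw [e1, e2]
  have h := inst hACT hENZ hCHZ hINH hHPL (encL n w Q Q') n w e1 h2 Q Q' e3 e4 hQ hQ' hb hb'
  rw [hL, hg]
  exact h

end Pool.Agent.COSB.H64L
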