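import Pool.Agent.COSB.StmtsA

set_option autoImplicit false

/-!
# Squad COSB, row PRK: an odd number of pairs (after the row PRS of COS by helper77)
-/

namespace Pool.Agent.COSB.H64

open Pool.Agent.COS

theorem prk (hg : GrpStmt) (hc : CrdStmt) (hr : RedStmt) (hk : RdkStmt) : PrkStmt := by
  intro n k hk1 W hne hW
  obtain ⟨U, hU, hodd⟩ := hc n
  obtain ⟨-, -, hrd, ⟨π, hπ⟩, hlift, -⟩ := hk n k hk1
  have hfin : Finite (Gr n ⧸ U) := inferInstance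
  let act : MulAction (G2 n k) (Gr n ⧸ U) := MulAction.compHom (Gr n ⧸ U) π
  have key := hg (G2 n k) (Gr n ⧸ U) W hne hW hodd
  have hsm : ∀ (w : G2 n k) (a : Gr n), w • (a : Gr n ⧸ U) = ((π w * a : Gr n) : Gr n ⧸ U) := by
    intro w a
    rfl
  have heq : ∀ a b : Gr n, ((a : Gr n ⧸ U) = (b : Gr n ⧸ U)) ↔ a⁻¹ * b ∈ U := by
    intro a b
    exact QuotientGroup.eq
  have hinj : ∀ a b : Gr n, Red a.1 → Red b.1 → (a : Gr n ⧸ U) = (b : Gr n ⧸ U) → a = b := by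
    intro a b ha hb hab
    have h1 := (heq a b).1 hab
    obtain ⟨c, -, hc2⟩ := hr n b
    have h2 := hc2 a ⟨ha, a⁻¹ * b, (hU _).1 h1, by group⟩
    have h3 := hc2 b ⟨hb, 1, (hU _).1 U.one_mem, by group⟩
    rw [h2, h3]
  have hsurj : ∀ x : Gr n ⧸ U, ∃ a : Gr n, Red a.1 ∧ (a : Gr n ⧸ U) = x := by
    intro x
    obtain ⟨g, rfl⟩ := QuotientGroup.mk_surjective x
    obtain ⟨a, ⟨ha, u, hu, hgu⟩, -⟩ := hr n g
    refine ⟨a, ha, ?_⟩
    rw [heq, hgu]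
    have : a⁻¹ * (a * u) = u := by group
    rw [this]
    exact (hU _).2 hu
  have hpi : ∀ (a : Gr n) (A : G2 n k), A.1 = up k a.1 → π A = a := by
    intro a A hA
    apply Units.ext
    rw [hπ, hA, hrd]
  have himg : (fun p : Gr n × Gr n => ((p.1 : Gr n ⧸ U), (p.2 : Gr n ⧸ U))) ''
      {p : Gr n × Gr n | Red p.1.1 ∧ Red p.2.1 ∧ (Sec2 k W p.1 p.2).Nonempty} =
        {p : (Gr n ⧸ U) × (Gr n ⧸ U) | ∃ w ∈ W, w • p.1 = p.2} := by
    ext ⟨x, y⟩
    constructor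
    · rintro ⟨⟨a, b⟩, ⟨_, _, _, u, A, B, hu, hA, hB, hw, _⟩, hxy⟩
      simp only [Prod.mk.injEq] at hxy
      refine ⟨_, hw, ?_⟩
      show (B * u * A⁻¹) • x = y
      rw [← hxy.1, ← hxy.2, hsm, heq, map_mul, map_mul, map_inv, hpi a A hA, hpi b B hB]
      have : (b * π u * a⁻¹ * a)⁻¹ * b = (π u)⁻¹ := by group
      rw [this]
      refine U.inv_mem ((hU _).2 ?_)
      rw [hπ]
      exact hu
    · rintro ⟨w, hw, hxy⟩
      obtain ⟨a, ha, hax⟩ := hsurj x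
      obtain ⟨b, hb, hby⟩ := hsurj y
      obtain ⟨A, hA⟩ := hlift a
      obtain ⟨B, hB⟩ := hlift b
      refine ⟨(a, b), ⟨ha, hb, crd k (B⁻¹ * (w * A)).1, B⁻¹ * (w * A), A, B, ?_, hA, hB, ?_, rfl⟩,
        ?_⟩
      · have h1 : ((π w * a : Gr n) : Gr n ⧸ U) = (b : Gr n ⧸ U) := by
          have h2 : w • x = y := hxy
          rw [← hax, ← hby, hsm] at h2
          exact h2
        have h3 := (hU _).1 ((heq b (π w * a)).1 h1.symm)
        have h4 : π (B⁻¹ * (w * A)) = b⁻¹ * (π w * a) := by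
          rw [map_mul, map_mul, map_inv, hpi a A hA, hpi b B hB]
        rw [← hπ, h4]
        exact h3
      · have : B * (B⁻¹ * (w * A)) * A⁻¹ = w := by group
        rw [this]
        exact hw
      · show ((a : Gr n ⧸ U), (b : Gr n ⧸ U)) = (x, y)
        rw [hax, hby]
  rw [← himg, Set.InjOn.ncard_image] at key
  · exact key
  · rintro ⟨a, b⟩ ⟨ha, hb, _⟩ ⟨a', b'⟩ ⟨ha', hb', _⟩ hab
    simp only [Prod.mk.injEq] at hab
    rw [hinj a a' ha ha' hab.1, hinj b b' hb hb' hab.2]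

end Pool.Agent.COSB.H64
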