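import Pool.Agent.COSB.StmtsE

/-!
# Squad COSB, row RST: restriction of scalars, group theory
-/

set_option autoImplicit false

namespace Pool.Agent.COSB.H64

open Pool.Agent.COS

/-- an injective representation of `E` by matrices over the prime field -/
theorem rep (E : Type) [Field E] [Finite E] : ∃ (p s : ℕ)
    (θ : E →+* Matrix (Fin s) (Fin s) (ZMod (p ^ 1))), p.Prime ∧ 0 < s ∧ Function.Injective θ := by
  obtain ⟨p, hp⟩ : ∃ p, p = ringChar E := ⟨_, rfl⟩
  have hc : CharP E p := by rw [hp]; infer_instance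
  have hpp : p.Prime := CharP.char_is_prime E p
  have hc1 : CharP E (p ^ 1) := by rw [pow_one]; exact hc
  have hf : Fact (p ^ 1).Prime := ⟨by rw [pow_one]; exact hpp⟩
  let _ : Algebra (ZMod (p ^ 1)) E := ZMod.algebra E (p ^ 1)
  have hfin : Module.Finite (ZMod (p ^ 1)) E := Module.Finite.of_finite
  refine ⟨p, Module.finrank (ZMod (p ^ 1)) E,
    (Algebra.leftMulMatrix (Module.finBasis (ZMod (p ^ 1)) E)).toRingHom, hpp,
    Module.finrank_pos, ?_⟩
  exact Algebra.leftMulMatrix_injective _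

section gen

variable {E R : Type} [Field E] [CommRing R] {s : ℕ} (θ : E →+* Matrix (Fin s) (Fin s) R)

/-- the block matrix -/
noncomputable def Th (n : ℕ) : Matrix (Fin n) (Fin n) E →+* Matrix (Fin (n * s)) (Fin (n * s)) R :=
  ((Matrix.reindexRingEquiv R finProdFinEquiv).toRingHom.comp
    (Matrix.compRingEquiv (Fin n) (Fin s) R).toRingHom).comp θ.mapMatrix

lemma Th_apply (n : ℕ) (A : Matrix (Fin n) (Fin n) E) (r t : Fin (n * s)) :
    Th θ n A r t = θ (A r.divNat t.divNat) r.modNat t.modNat := rfl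

lemma Th_inj (hθ : Function.Injective θ) (n : ℕ) : Function.Injective (Th θ n) := by
  intro A B h
  ext i j
  apply hθ
  ext a b
  have h1 := congrFun (congrFun h (finProdFinEquiv (i, a))) (finProdFinEquiv (j, b))
  rw [Th_apply, Th_apply] at h1
  have e1 : (finProdFinEquiv (i, a)).divNat = i ∧ (finProdFinEquiv (i, a)).modNat = a := by
    have := finProdFinEquiv.symm_apply_apply (i, a)
    exact ⟨congrArg Prod.fst this, congrArg Prod.snd this⟩
  have e2 : (finProdFinEquiv (j, b)).divNat = j ∧ (finProdFinEquiv (j, b)).modNat = b := by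
    have := finProdFinEquiv.symm_apply_apply (j, b)
    exact ⟨congrArg Prod.fst this, congrArg Prod.snd this⟩
  rw [e1.1, e1.2, e2.1, e2.2] at h1
  exact h1

/-- the homomorphism of the groups -/
noncomputable def ThG (n : ℕ) : Matrix.GeneralLinearGroup (Fin n) E →*
    Matrix.GeneralLinearGroup (Fin (n * s)) R :=
  Units.map (Th θ n).toMonoidHom

lemma ThG_val (n : ℕ) (A : Matrix.GeneralLinearGroup (Fin n) E) :
    (ThG θ n A).1 = Th θ n A.1 := rfl

lemma set_eq (n : ℕ) (S : Set (Matrix.GeneralLinearGroup (Fin n) E)) :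
    {B : Matrix.GeneralLinearGroup (Fin (n * s)) R | ∃ A ∈ S, ∀ r t : Fin (n * s),
      B.1 r t = θ (A.1 r.divNat t.divNat) r.modNat t.modNat} = (ThG θ n) '' S := by
  ext B
  constructor
  · rintro ⟨A, hA, h⟩
    refine ⟨A, hA, Units.ext ?_⟩
    ext r t
    rw [ThG_val, Th_apply, h r t]
  · rintro ⟨A, hA, rfl⟩
    exact ⟨A, hA, fun r t => by rw [ThG_val, Th_apply]⟩

lemma unit_of (hθ : Function.Injective θ) (n : ℕ)
    (B : Matrix.GeneralLinearGroup (Fin (n * s)) R) (A : Matrix (Fin n) (Fin n) E)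
    (h : ∀ r t : Fin (n * s), B.1 r t = θ (A r.divNat t.divNat) r.modNat t.modNat) :
    IsUnit A := by
  have hB : B.1 = Th θ n A := by
    ext r t
    rw [Th_apply, h r t]
  rw [Matrix.isUnit_iff_isUnit_det, isUnit_iff_ne_zero]
  intro hd
  obtain ⟨v, hv, hAv⟩ := Matrix.exists_mulVec_eq_zero_iff.2 hd
  have h1 : A * (Matrix.of fun i (_ : Fin n) => v i) = 0 := by
    ext i j
    exact congrFun hAv i
  have h2 : Th θ n A * Th θ n (Matrix.of fun i (_ : Fin n) => v i) = 0 := by
    rw [← map_mul, h1, map_zero]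
  rw [← hB] at h2
  have h3 : Th θ n (Matrix.of fun i (_ : Fin n) => v i) = 0 := by
    have h4 : (B⁻¹).1 * (B.1 * Th θ n (Matrix.of fun i (_ : Fin n) => v i)) = 0 := by
      rw [h2, mul_zero]
    rw [← mul_assoc, ← Units.val_mul, inv_mul_cancel, Units.val_one, one_mul] at h4
    exact h4
  have h5 : (Matrix.of fun i (_ : Fin n) => v i) = (0 : Matrix (Fin n) (Fin n) E) := by
    apply Th_inj θ hθ n
    rw [h3, map_zero]
  apply hv
  funext i
  exact congrFun (congrFun h5 i) i

end gen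

theorem rst : RstStmt := by
  intro E _ _
  obtain ⟨p, s, θ, hp, hs, hθ⟩ := rep E
  refine ⟨p, s, θ, hp, hs, hθ, ?_⟩
  intro n S hS
  refine ⟨?_, ?_, fun B A h => unit_of θ hθ n B A h⟩
  · have e := set_eq θ n S
    have h1 : Heap ((ThG θ n) '' S) := by
      rintro _ ⟨a, ha, rfl⟩ _ ⟨b, hb, rfl⟩ _ ⟨c, hc, rfl⟩
      exact ⟨a * b⁻¹ * c, hS a ha b hb c hc, by rw [map_mul, map_mul, map_inv]⟩
    rw [← e] at h1
    exact h1
  · have e := set_eq θ n S
    have h1 : ((ThG θ n) '' S).Nonempty ↔ S.Nonempty := Set.image_nonempty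
    rw [← e] at h1
    exact h1

end Pool.Agent.COSB.H64
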